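import Pool.Agent.W269.BL.Stm

set_option autoImplicit false

/-!
# Project BL, part PEL1: Stickelberger's theorem for an irreducible polynomial over a finite field
-/

open Polynomial Finset

namespace Pool.Agent.W611.BL.PEL1

open Pool.Agent.W269.BL

universe u

lemma prod_pairs {L : Type*} [CommRing L] {d : ℕ} (v : Fin d → L) :
    (-1 : L) ^ (d * (d - 1) / 2) * ∏ i, ∏ j ∈ ({i}ᶜ : Finset (Fin d)), (v i - v j) =
      (Matrix.vandermonde v).det ^ 2 := by
  rw [← Finset.prod_prod_Ioi_mul_eq_prod_prod_off_diag (fun j i => v i - v j),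
    Matrix.det_vandermonde]
  have h1 : ∀ i : Fin d, ∏ j ∈ Ioi i, (v i - v j) * (v j - v i) =
      (-1) ^ (d - 1 - (i : ℕ)) * (∏ j ∈ Ioi i, (v j - v i)) ^ 2 := by
    intro i
    have : ∀ j ∈ Ioi i, (v i - v j) * (v j - v i) = (-1) * (v j - v i) ^ 2 := by
      intro j _; ring
    rw [Finset.prod_congr rfl this, Finset.prod_mul_distrib, Finset.prod_const, Fin.card_Ioi,
      Finset.prod_pow]
  rw [Finset.prod_congr rfl (fun i _ => h1 i), Finset.prod_mul_distrib, Finset.prod_pow,
    Finset.prod_pow_eq_pow_sum]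
  have h2 : ∑ i : Fin d, (d - 1 - (i : ℕ)) = d * (d - 1) / 2 := by
    rw [Fin.sum_univ_eq_sum_range (fun i => d - 1 - i), Finset.sum_range_reflect (fun i => i) d,
      Finset.sum_range_id]
  rw [h2, ← mul_assoc, ← pow_add]
  have : Even (d * (d - 1) / 2 + d * (d - 1) / 2) := ⟨_, rfl⟩
  rw [this.neg_one_pow, one_mul]

/-- The Frobenius multiplies the Vandermonde determinant of a Frobenius orbit by `(-1)^(d+1)`. -/
lemma frob_det {K L : Type*} [Field K] [Fintype K] [Field L] [Algebra K L] (n : ℕ) (θ : L)
    (hθ : θ ^ (Fintype.card K ^ (n + 1)) = θ) :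
    (Matrix.vandermonde (fun i : Fin (n + 1) => θ ^ (Fintype.card K ^ (i : ℕ)))).det ^
        Fintype.card K =
      (-1) ^ n *
        (Matrix.vandermonde (fun i : Fin (n + 1) => θ ^ (Fintype.card K ^ (i : ℕ)))).det := by
  set v : Fin (n + 1) → L := fun i => θ ^ (Fintype.card K ^ (i : ℕ)) with hv
  have h1 : (Matrix.vandermonde v).det ^ Fintype.card K =
      FiniteField.frobeniusAlgHom K L (Matrix.vandermonde v).det := rfl
  rw [h1, AlgHom.map_det]
  have h2 : (FiniteField.frobeniusAlgHom K L).mapMatrix (Matrix.vandermonde v) =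
      (Matrix.vandermonde v).submatrix (finRotate (n + 1)) id := by
    ext i j
    rw [AlgHom.mapMatrix_apply, Matrix.map_apply, Matrix.submatrix_apply, Matrix.vandermonde_apply,
      Matrix.vandermonde_apply, map_pow, id]
    congr 1
    show (v i) ^ Fintype.card K = v (finRotate (n + 1) i)
    simp only [hv]
    rw [← pow_mul, ← pow_succ]
    rcases Fin.eq_castSucc_or_eq_last i with ⟨k, rfl⟩ | rfl
    · rw [finRotate_apply]
      simp
    · rw [finRotate_last]
      simpa using hθ
  rw [h2, Matrix.det_permute, sign_finRotate]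
  simp

theorem main : Pool.Agent.W269.BL.StmPEL1.{u} := by
  intro K _ _ _ h2 P hP hirr
  have : Fact (Irreducible P) := ⟨hirr⟩
  have hP0 : P ≠ 0 := hP.ne_zero
  have hd : 0 < P.natDegree := hirr.natDegree_pos
  obtain ⟨n, hn⟩ : ∃ n, P.natDegree = n + 1 := ⟨P.natDegree - 1, by omega⟩
  set q := Fintype.card K with hq
  let L := AdjoinRoot P
  let pb := AdjoinRoot.powerBasis hP0
  have : Module.Finite K L := pb.finite
  have : Finite L := Module.finite_of_finite K
  have hfr : Module.finrank K L = n + 1 := by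
    rw [pb.finrank]; exact hn
  let θ : L := AdjoinRoot.root P
  have hpow : ∀ (k : ℕ) (x : L), (FiniteField.frobeniusAlgHom K L ^ k) x = x ^ (q ^ k) := by
    intro k x
    rw [AlgHom.coe_pow, FiniteField.coe_frobeniusAlgHom, pow_iterate]
  have hθ : θ ^ (q ^ (n + 1)) = θ := by
    rw [← hpow, ← hfr, ← FiniteField.orderOf_frobeniusAlgHom K L, pow_orderOf_eq_one]
    rfl
  let v : Fin (n + 1) → L := fun i => θ ^ (q ^ (i : ℕ))
  have hvinj : Function.Injective v := by
    intro i j hij
    have h1 : FiniteField.frobeniusAlgHom K L ^ (i : ℕ) = FiniteField.frobeniusAlgHom K L ^ (j : ℕ) := by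
      apply AdjoinRoot.algHom_ext
      rw [hpow, hpow]
      exact hij
    have h3 := (FiniteField.bijective_frobeniusAlgHom_pow K L).1
    have := @h3 (finCongr hfr.symm i) (finCongr hfr.symm j) (by simpa using h1)
    simpa using this
  have hroot : ∀ i, aeval (v i) P = 0 := by
    intro i
    have : v i = (FiniteField.frobeniusAlgHom K L ^ (i : ℕ)) θ := (hpow _ _).symm
    rw [this, aeval_algHom_apply]
    have h0 : aeval θ P = 0 := by
      rw [AdjoinRoot.aeval_eq, AdjoinRoot.mk_self]
    rw [h0, map_zero]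
  set PL : L[X] := P.map (algebraMap K L) with hPL
  have hPLm : PL.Monic := hP.map _
  have hPLd : PL.natDegree = n + 1 := by rw [hPL, natDegree_map, hn]
  have hroots : PL.roots = (Finset.univ : Finset (Fin (n + 1))).val.map v := by
    symm
    apply Multiset.eq_of_le_of_card_le
    · rw [Multiset.le_iff_subset ((Finset.univ : Finset (Fin (n + 1))).nodup.map hvinj)]
      intro x hx
      rw [Multiset.mem_map] at hx
      obtain ⟨i, _, rfl⟩ := hx
      rw [mem_roots hPLm.ne_zero, IsRoot.def, hPL, eval_map_algebraMap]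
      exact hroot i
    · rw [Multiset.card_map]
      refine (card_roots' _).trans ?_
      rw [hPLd]; simp
  have hsplit : PL.Splits := by
    rw [splits_iff_card_roots, hroots, Multiset.card_map, hPLd]
    simp
  have hder : ∀ i, eval (v i) (derivative PL) = ∏ j ∈ ({i}ᶜ : Finset (Fin (n + 1))), (v i - v j) := by
    intro i
    rw [hsplit.eval_root_derivative hPLm (by rw [hroots]; exact Multiset.mem_map_of_mem _ (Finset.mem_univ i)),
      hroots, ← Multiset.map_erase v hvinj, Multiset.map_map, Finset.compl_eq_univ_sdiff,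
      Finset.sdiff_singleton_eq_erase]
    rfl
  have hrs : algebraMap K L (rs P (derivative P)) =
      ∏ i, ∏ j ∈ ({i}ᶜ : Finset (Fin (n + 1))), (v i - v j) := by
    have e1 : algebraMap K L (rs P (derivative P)) =
        resultant PL (derivative PL) PL.natDegree (derivative P).natDegree := by
      rw [rs, ← resultant_map_map, hPL, natDegree_map, derivative_map]
    rw [e1, resultant_eq_prod_eval _ _ _ (by rw [hPL, derivative_map]; exact natDegree_map_le) hsplit,
      hPLm.leadingCoeff, one_pow, one_mul, hroots, Multiset.map_map]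
    show ∏ i, _ = _
    apply Finset.prod_congr rfl
    intro i _
    exact hder i
  set x : K := (-1) ^ (P.natDegree * (P.natDegree - 1) / 2) * rs P (derivative P) with hx
  set δ : L := (Matrix.vandermonde v).det with hδ
  have hδ0 : δ ≠ 0 := Matrix.det_vandermonde_ne_zero_iff.mpr hvinj
  have hxδ : algebraMap K L x = δ ^ 2 := by
    rw [hx, map_mul, map_pow, map_neg, map_one, hrs, hn]
    exact prod_pairs v
  have hδq : δ ^ q = (-1) ^ n * δ := frob_det n θ hθ
  have hchar : ringChar K ≠ 2 := by
    intro h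
    apply h2
    have := ringChar.Nat.cast_ringChar (R := K)
    rw [h] at this
    exact_mod_cast this
  have hodd : q % 2 = 1 := FiniteField.odd_card_of_char_ne_two hchar
  have hδq1 : δ ^ (q - 1) = (-1) ^ n := by
    have h3 : δ ^ (q - 1) * δ = (-1) ^ n * δ := by
      rw [← pow_succ, Nat.sub_add_cancel (by omega), hδq]
    exact mul_right_cancel₀ hδ0 h3
  have hxq : x ^ (q / 2) = (-1) ^ n := by
    apply (algebraMap K L).injective
    rw [map_pow, hxδ, ← pow_mul, map_pow, map_neg, map_one, ← hδq1]
    congr 1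
    omega
  have hqc := quadraticChar_eq_pow_of_char_ne_two' hchar x
  rw [← hq, hxq] at hqc
  have hx0 : x ≠ 0 := by
    intro h
    rw [h, map_zero] at hxδ
    exact hδ0 (pow_eq_zero_iff (two_ne_zero) |>.mp hxδ.symm)
  have hm1 : (-1 : K) ≠ 1 := Ring.neg_one_ne_one_of_char_ne_two hchar
  rw [hn, show n + 1 + 1 = n + 2 from rfl, pow_add, neg_one_sq, mul_one]
  rcases quadraticChar_dichotomy hx0 with h | h
  · rw [h] at hqc ⊢
    rcases Nat.even_or_odd n with he | ho
    · rw [he.neg_one_pow]
    · rw [ho.neg_one_pow] at hqc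
      exact absurd (by simpa using hqc.symm) hm1
  · rw [h] at hqc ⊢
    rcases Nat.even_or_odd n with he | ho
    · rw [he.neg_one_pow] at hqc
      exact absurd (by simpa using hqc) hm1
    · rw [ho.neg_one_pow]

end Pool.Agent.W611.BL.PEL1
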